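import Pool.Agent.N150.PN.Iit

/-!
# Abundance and Iitaka fibrations for covers of products of projective spaces over arrangements

For `i < r` let `ℓ i k = 0`, `k < q i`, be hyperplanes in projective `n i`-space (an arbitrary
arrangement), `N = ∑ i, n i`. Let `X` be a projective manifold (or a normal projective variety) of
dimension `N` with a generically finite map to the product of the projective spaces which is defined
over the general points of all prime divisors of the product, and `Δ` an `ℝ`-divisor on `X` with
coefficients in `[0, 1]`; for the problem `Δ = 0`. The factors are divided into two classes: those in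
the set `I` and the others. There are three assumptions.

* (Lower bound.) At the prime divisors `P` of `X` over the arrangements, with the multiplicities
  `v i k` of the hyperplanes and the coefficient `δ P` of `Δ`, the number `1 - δ P` is at most
  `∑ i, g i (v i)`, where each `g i` is one of the functions `(max v i k) / (n i + 2)` (for an
  irreducible arrangement), `(max v i k) / (n i + 1)` (if moreover it does not consist of `n i + 2`
  hyperplanes in general position), or the (combinatorial) log discrepancy of a log Calabi-Yau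
  arrangement with rational weights. The inequality is strict if `P` lies over one chosen hyperplane
  of a factor in `I`.
* (Upper bound.) For the factors which are not in `I` some weights `w i k ≥ 0` of sum `n i + 1` are
  given (so `K + ∑ k, w i k H k` is numerically trivial on the factor), and at the prime divisors
  over the hyperplanes of the factor `i`, with ramification index `m`, the number `1 - δ P` is at
  least `m - ∑ k, w i k v i k`.
* The map is unramified and `Δ` is zero over the general points of all other prime divisors, except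
  for finitely many hypersurfaces `f = 0`, `f ∈ F`, whose equations only depend on the coordinates of
  the factors in `I`; over these everything is allowed.

The theorem: `κ (K_X + Δ) = ν (K_X + Δ) = ∑ i ∈ I, n i`, and the Iitaka fibration of `K_X + Δ` is the
Stein factorization of the map from `X` to the product of the factors in `I`: a multiple of `K_X + Δ`
is the sum of the pullback of the hyperplane classes of these factors and an effective divisor, and
the ratios of all sections of all multiples are algebraic over the function field of this product. So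
abundance holds, with a Kodaira dimension which may be any number between `0` and `N`. If `X` is a
manifold, `Δ = 0` and `K_X` is nef then it follows by the theorem of Kawamata that `K_X` is semiample,
and the contraction given by `K_X` is this Stein factorization, up to birational maps. Neither `X`
nor its map to the product is assumed to be a product, a fibration in curves or surfaces, abelian or
Galois; in general `X` is not a variety of general type and not the total space of an isotrivial
family.

The function-field language of the starting repository is used. `K` is the function field of `X`, the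
coordinates of the map to the `i`-th factor are `x i 0, ..., x i (n i)`, and the prime divisors of `X`
are places `P` of `K` (`Place`), `P.ord` is the order along `P`; `X` is given by the set of its prime
divisors. A section of `m (K_X + Δ)` is an `m`-canonical form `ω` (`IsPluri`), a function of `N`
rational vector fields, whose values on vector fields that are regular at `P` have order at least
`- m δ P`, for all prime divisors `P` of `X`. The proof of the equality of the dimensions is in the
starting file `Pool/Agent/TH756/PN/FinW.lean` (which no starting result uses): forms with the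
denominators `∏ (ℓ i k) ^ (b i k)`, for the base polytopes of the matroids of the arrangements, give
the lower bound for `κ`, and norms of sections to the product of the projective spaces the upper
bound for `ν`. The statements on the Iitaka fibration are new: the forms above have the ratios
`x i j / x i 0`, and a ratio of sections which is transcendental over these functions would give more
than `C m ^ h` sections of degree `m`, `h = ∑ i ∈ I, n i`.
-/

set_option autoImplicit false

open FF Module Pool.Agent.W602.Cov Pool.Agent.W602.GT Pool.Agent.TH152.AC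

namespace Pool.Agent.Results.MP_97d78d_ag.ProductsOfArrangements

section bounds

variable {n q : ℕ}

/-- In suitable linear coordinates `X 0, ..., X n` each of the hyperplanes is one of `X j = 0` or
`X 0 + ... + X n = 0`. The arrangements with this property which are not reducible are, up to
repetitions, the arrangements of `n + 2` hyperplanes in general position. -/
def Simplicial (ℓ : Fin q → Form n) : Prop :=
  ∃ X : Basis (Fin (n + 1)) ℂ (Form n), ∀ i,
    (∃ c : ℂ, ℓ i = c • ∑ j, X j) ∨ ∃ (j : Fin (n + 1)) (c : ℂ), ℓ i = c • X j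

/-- `(ℙ ^ n, ∑ w k H k)` is a log Calabi-Yau pair with rational weights: `w` is a rational convex
combination of the vectors with entries `1` for the `n + 1` hyperplanes of a basis `B` (that is, of
`n + 1` linearly independent ones) and `0` for all others. -/
def LogCalabiYau (ℓ : Fin q → Form n) (w : Fin q → ℚ) : Prop :=
  ∃ p : Bases ℓ → ℕ, 0 < ∑ B, p B ∧ ∀ k, (∑ B, (p B : ℚ)) * w k =
    ∑ B, (p B : ℚ) * ((Finset.univ.filter fun a => B.1 a = k).card : ℚ)

/-- The maximum of the sums of the `v k` over the bases, minus the sum of the `w k * v k`. This is the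
log discrepancy of the pair `(ℙ ^ n, ∑ w k H k)` at the toric divisors over the projective space along
which the hyperplanes have the multiplicities `v k`, and a lower bound for it at all divisors with
these multiplicities. -/
noncomputable def logDiscrepancy (ℓ : Fin q → Form n) (w : Fin q → ℚ) (v : Fin q → ℕ) : ℚ :=
  ((Finset.univ.sup fun B : Bases ℓ => ∑ a, v (B.1 a) : ℕ) : ℚ) - ∑ k, w k * v k

/-- The lower bounds for one arrangement, as functions of the multiplicities. -/
inductive Bound (ℓ : Fin q → Form n) : ((Fin q → ℕ) → ℚ) → Prop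
  | irreducible : ¬ Reducible ℓ →
      Bound ℓ fun v => ((Finset.univ.sup v : ℕ) : ℚ) / ((n + 2 : ℕ) : ℚ)
  | notSimplicial : ¬ Reducible ℓ → ¬ Simplicial ℓ →
      Bound ℓ fun v => ((Finset.univ.sup v : ℕ) : ℚ) / ((n + 1 : ℕ) : ℚ)
  | logCalabiYau (w : Fin q → ℚ) : LogCalabiYau ℓ w → Bound ℓ (logDiscrepancy ℓ w)

end bounds

/-- The value of a linear form at a vector over `K`. -/
noncomputable def form {n : ℕ} {K : Type} [Field K] [Algebra ℂ K] (φ : Form n)
    (x : Fin (n + 1) → K) : K := ∑ j, algebraMap ℂ K (φ (Pi.single j 1)) * x j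

section divisors

variable {r : ℕ} {n q : Fin r → ℕ} {K : Type} [Field K] [Algebra ℂ K]

/-- The affine coordinates of the product of the projective spaces. -/
noncomputable def affine (x : ∀ i, Fin (n i + 1) → K) (b : (i : Fin r) × Fin (n i)) : K :=
  x b.1 b.2.succ / x b.1 0

/-- The degree in the affine coordinates of the `i`-th factor. -/
def degree (i : Fin r) (f : MvPolynomial ((i : Fin r) × Fin (n i)) ℂ) : ℕ :=
  f.support.sup fun m => ∑ j : Fin (n i), m ⟨i, j⟩

/-- The hyperplanes `ℓ i k` have the multiplicities `v i k` at `P`: their orders are `a i + v i k`,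
where `a i` is the minimum of the orders of all linear forms on the `i`-th factor. -/
def Multiplicities (ℓ : ∀ i, Fin (q i) → Form (n i)) (x : ∀ i, Fin (n i + 1) → K)
    (P : Place ℂ K) (a : Fin r → ℤ) (v : ∀ i, Fin (q i) → ℕ) : Prop :=
  (∀ i (φ : Form (n i)), form φ (x i) = 0 ∨ a i ≤ P.ord (form φ (x i))) ∧
    (∀ i, ∃ φ : Form (n i), form φ (x i) ≠ 0 ∧ P.ord (form φ (x i)) = a i) ∧
    ∀ i k, P.ord (form (ℓ i k) (x i)) = a i + v i k

/-- `P` lies over a prime divisor of the product of the projective spaces, with ramification index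
`m`: over the closure of an irreducible hypersurface `p = 0` of the affine space, or over the divisor
at infinity of one of the factors. -/
def LiesOver (x : ∀ i, Fin (n i + 1) → K) (P : Place ℂ K) (m : ℕ) : Prop :=
  (∃ p : MvPolynomial ((i : Fin r) × Fin (n i)) ℂ, Irreducible p ∧
    P.ord (MvPolynomial.aeval (affine x) p) = m ∧
    ∀ f, f ≠ 0 → 0 ≤ P.ord (MvPolynomial.aeval (affine x) f) ∧
      (P.ord (MvPolynomial.aeval (affine x) f) = 0 ↔ ¬ p ∣ f)) ∨
  (0 < m ∧ ∃ i, ∀ f, f ≠ 0 →
    P.ord (MvPolynomial.aeval (affine x) f) = - ((m : ℤ) * (degree i f : ℤ)))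

/-- `X` is the set of the prime divisors of a normal model of `K` such that the map to the product is
defined over the general points of the prime divisors of the product: a function has finitely many
zeros and poles on `X`, and `X` contains the places over the prime divisors of the product. -/
def IsModel (x : ∀ i, Fin (n i + 1) → K) (X : Set (Place ℂ K)) : Prop :=
  (∀ f : K, f ≠ 0 → {P ∈ X | P.ord f ≠ 0}.Finite) ∧ ∀ P m, LiesOver x P m → P ∈ X

/-- The lower bound: at every prime divisor `P` of `X` over one of the hyperplanes `1 - δ P` is at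
most the sum of the bounds `g i` for the multiplicities, and less than it if `P` lies over the chosen
hyperplane `k0 i` of a factor `i ∈ I`. -/
def LowerBound (N : ℕ) (ℓ : ∀ i, Fin (q i) → Form (n i)) (g : ∀ i, (Fin (q i) → ℕ) → ℚ)
    (I : Finset (Fin r)) (k0 : ∀ i, Fin (q i)) (x : ∀ i, Fin (n i + 1) → K)
    (X : Set (Place ℂ K)) (δ : Place ℂ K → ℝ) : Prop :=
  ∀ P ∈ X, Divisorial N P → ∀ (a : Fin r → ℤ) (v : ∀ i, Fin (q i) → ℕ), Multiplicities ℓ x P a v →
    (∃ i, v i ≠ 0) → 1 - δ P ≤ ((∑ i, g i (v i) : ℚ) : ℝ) ∧
      ((∃ i ∈ I, v i (k0 i) ≠ 0) → 1 - δ P < ((∑ i, g i (v i) : ℚ) : ℝ))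

/-- The upper bound: let `P` lie over a prime divisor of the product, with ramification index `m`. If
this divisor is neither one of the hyperplanes nor a component of `f = 0`, `f ∈ F`, then `m = 1` and
`δ P ≤ 0`; if it is a hyperplane of a factor `i ∉ I` then `m - ∑ k, w i k v i k ≤ 1 - δ P`. -/
def UpperBound (ℓ : ∀ i, Fin (q i) → Form (n i)) (w : ∀ i, Fin (q i) → ℚ)
    (I : Finset (Fin r)) (F : Finset (MvPolynomial ((i : Fin r) × Fin (n i)) ℂ))
    (x : ∀ i, Fin (n i + 1) → K) (δ : Place ℂ K → ℝ) : Prop :=
  ∀ P m, LiesOver x P m → ∀ (a : Fin r → ℤ) (v : ∀ i, Fin (q i) → ℕ), Multiplicities ℓ x P a v →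
    ((∀ i, v i = 0) → (∀ f ∈ F, P.ord (MvPolynomial.aeval (affine x) f) = 0) →
      m = 1 ∧ δ P ≤ 0) ∧
    ∀ i, i ∉ I → v i ≠ 0 → (m : ℝ) - ((∑ k, w i k * v i k : ℚ) : ℝ) ≤ 1 - δ P

end divisors

section dimensions

variable (K : Type) [Field K] [Algebra ℂ K] (N : ℕ) (X : Set (Place ℂ K)) (δ : Place ℂ K → ℝ)

/-- `ω` is a section of `m (K_X + Δ) + A`, where `X` is a variety of dimension `N` given by the set of
its prime divisors, `Δ` has the coefficient `δ P` at `P`, and `A` is the divisor generated by the
finite set `S` of functions (the order of a section of `A` at `P` is at least the order of one of the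
functions in `S`; `A = 0` for `S = {1}`). -/
def IsSection (S : Finset K) (m : ℕ) (ω : (Fin N → Derivation ℂ K K) → K) : Prop :=
  IsPluri m ω ∧ ∀ P ∈ X, Divisorial N P → ∀ D : Fin N → Derivation ℂ K K,
    (∀ i, DerReg P (D i)) → ω D = 0 ∨ ∃ s ∈ S, s ≠ 0 ∧ (P.ord s : ℝ) - m * δ P ≤ P.ord (ω D)

/-- `κ (K_X + Δ) ≥ h`: for some `m > 0` there are sections `ω 0, ..., ω h` of `m (K_X + Δ)` such that
the functions `ω b / ω 0`, `b = 1, ..., h`, are algebraically independent. -/
def KodairaGe (h : ℕ) : Prop :=
  ∃ m : ℕ, 0 < m ∧ ∃ ω : Fin (h + 1) → (Fin N → Derivation ℂ K K) → K,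
    (∀ b, IsSection K N X δ {1} m (ω b)) ∧
    ∃ D, ω 0 D ≠ 0 ∧ AlgebraicIndependent ℂ (fun b : Fin h => ω b.succ D / ω 0 D)

/-- `ν (K_X + Δ) ≤ h`: for every divisor `A`, generated by a finite set `S` of functions, there is a
constant `C` such that `h⁰ (m (K_X + Δ) + A) ≤ C m ^ h` for all `m ≥ 1`. -/
def NumericalLe (h : ℕ) : Prop :=
  ∀ S : Finset K, ∃ C : ℕ, ∀ m M : ℕ, 1 ≤ m →
    (∃ ω : Fin M → (Fin N → Derivation ℂ K K) → K, LinearIndependent ℂ ω ∧
      ∀ l, IsSection K N X δ S m (ω l)) → M ≤ C * m ^ h

/-- The Iitaka fibration of `K_X + Δ` is the Stein factorization of the rational map of `X` whose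
affine coordinates are the functions in `B`: for some `m > 0` there is a section `ω₀ ≠ 0` of
`m (K_X + Δ)` such that all `z ω₀`, `z ∈ B`, are sections; and for all `m > 0` the ratios `ω' / ω` of
sections of `m (K_X + Δ)` are algebraic over the field generated by `B`. -/
def IitakaFibration (B : Set K) : Prop :=
  (∃ m : ℕ, 0 < m ∧ ∃ ω₀ : (Fin N → Derivation ℂ K K) → K, (∃ D, ω₀ D ≠ 0) ∧
    IsSection K N X δ {1} m ω₀ ∧ ∀ z ∈ B, IsSection K N X δ {1} m (fun D => z * ω₀ D)) ∧
  ∀ m : ℕ, 0 < m → ∀ ω ω' : (Fin N → Derivation ℂ K K) → K, IsSection K N X δ {1} m ω →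
    IsSection K N X δ {1} m ω' → ∀ D, ω D ≠ 0 → IsAlgebraic (Algebra.adjoin ℂ B) (ω' D / ω D)

end dimensions

/-- **Abundance.** Let `X` be a normal projective variety of dimension `N = ∑ i, n i` with function
field `K` and a generically finite map to the product of the projective `n i`-spaces, `Δ` a divisor on
`X` with coefficients in `[0, 1]`, and let the lower bound, with the bounds `g i`, and the upper bound,
with the weights `w i ≥ 0` of sum `n i + 1`, `i ∉ I`, and the polynomials `f ∈ F` in the coordinates of
the factors `i ∈ I`, be satisfied. Then `∑ i ∈ I, n i ≤ κ (K_X + Δ) ≤ ν (K_X + Δ) ≤ ∑ i ∈ I, n i`, and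
the Iitaka fibration of `K_X + Δ` is the Stein factorization of the map from `X` to the product of the
factors `i ∈ I`, with the affine coordinates `x i j / x i 0`. -/
theorem result (N r : ℕ) (n q : Fin r → ℕ) (hr : 1 ≤ r) (hn : ∀ i, 1 ≤ n i) (hN : N = ∑ i, n i)
    (ℓ : ∀ i, Fin (q i) → Form (n i)) (hℓ : ∀ i k, ℓ i k ≠ 0)
    (g : ∀ i, (Fin (q i) → ℕ) → ℚ) (hg : ∀ i, Bound (ℓ i) (g i))
    (I : Finset (Fin r)) (k0 : ∀ i, Fin (q i)) (w : ∀ i, Fin (q i) → ℚ)
    (hw : ∀ i, i ∉ I → (∀ k, 0 ≤ w i k) ∧ ∑ k, w i k = (n i : ℚ) + 1)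
    (F : Finset (MvPolynomial ((i : Fin r) × Fin (n i)) ℂ))
    (hF : ∀ f ∈ F, f ≠ 0 ∧ ∀ i, i ∉ I → degree i f = 0)
    (K : Type) [Field K] [Algebra ℂ K] (x : ∀ i, Fin (n i + 1) → K) (hx : ∀ i, x i 0 ≠ 0)
    (hbas : IsTranscendenceBasis ℂ (affine x))
    (hfin : FiniteDimensional (IntermediateField.adjoin ℂ (Set.range (affine x))) K)
    (X : Set (Place ℂ K)) (hX : IsModel x X) (δ : Place ℂ K → ℝ)
    (hδ : ∀ P ∈ X, 0 ≤ δ P ∧ δ P ≤ 1) (hlow : LowerBound N ℓ g I k0 x X δ)
    (hupp : UpperBound ℓ w I F x δ) :
    KodairaGe K N X δ (∑ i ∈ I, n i) ∧ NumericalLe K N X δ (∑ i ∈ I, n i) ∧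
      IitakaFibration K N X δ {z : K | ∃ i ∈ I, ∃ j, z = x i j / x i 0} := by
  have hwtd : ∀ i, Pool.Agent.TH756.PN.Wtd (ℓ i) (g i) := by
    intro i
    obtain ⟨G, hG⟩ : ∃ G, G = g i := ⟨_, rfl⟩
    have h1 := hg i
    rw [← hG] at h1 ⊢
    cases h1 with
    | irreducible h2 =>
      exact Pool.Agent.TH756.PN.wtd_slack (by omega)
        (Pool.Agent.TH756.PR.slack_of_bnd (hn i) (hℓ i) h2 (Or.inl rfl))
        (Pool.Agent.W392.CG.span_top (hn i) (ℓ i) h2)
    | notSimplicial h2 h3 =>
      exact Pool.Agent.TH756.PN.wtd_slack (by omega)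
        (Pool.Agent.TH756.PR.slack_of_bnd (hn i) (hℓ i) h2 (Or.inr ⟨rfl, Or.inr h3⟩))
        (Pool.Agent.W392.CG.span_top (hn i) (ℓ i) h2)
    | logCalabiYau w h2 => exact Pool.Agent.TH756.PN.BasePt.wtd h2
  obtain ⟨⟨T, hT, ω, hω, hD⟩, hν⟩ := Pool.Agent.TH756.PN.pairs_main (K := K) (x := x) (ℓ := ℓ)
    hr hn hN hℓ g hwtd I k0 w (fun i hi => (hw i hi).1) (fun i hi => (hw i hi).2) F
    (fun f hf => (hF f hf).1) (fun f hf => (hF f hf).2) hx hbas hfin X hX.1 hX.2 δ
    (fun P hP => (hδ P hP).1) (fun P hP => (hδ P hP).2) hlow hupp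
  have hsec : ∀ (m : ℕ) (ω : (Fin N → Derivation ℂ K K) → K),
      IsSection K N X δ {1} m ω ↔ Pool.Agent.TH756.PN.PSec N X δ m ω := by
    intro m ω
    refine ⟨fun h => ⟨h.1, fun P hP hd D hD => ?_⟩, fun h => ⟨h.1, fun P hP hd D hD => ?_⟩⟩
    · rcases h.2 P hP hd D hD with h1 | ⟨s, hs, -, h1⟩
      · exact Or.inl h1
      · right
        rw [Finset.mem_singleton.1 hs, P.ord_one] at h1
        push_cast at h1
        linarith
    · rcases h.2 P hP hd D hD with h1 | h1
      · exact Or.inl h1
      · refine Or.inr ⟨1, Finset.mem_singleton_self 1, one_ne_zero, ?_⟩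
        rw [P.ord_one]
        push_cast
        linarith
  obtain ⟨-, ⟨T', hT', ω₀, hne, hω₀, hx'⟩, halg⟩ := Pool.Agent.N150.PN.iitaka_main (K := K)
    (x := x) (ℓ := ℓ) hr hn hN hℓ g hwtd I k0 w (fun i hi => (hw i hi).1) (fun i hi => (hw i hi).2) F
    (fun f hf => (hF f hf).1) (fun f hf => (hF f hf).2) hx hbas hfin X hX.1 hX.2 δ
    (fun P hP => (hδ P hP).1) (fun P hP => (hδ P hP).2) hlow hupp
  refine ⟨⟨T, hT, ω, fun b => (hsec _ _).2 (hω b), hD⟩, hν,
    ⟨T', hT', ω₀, hne, (hsec _ _).2 hω₀, ?_⟩, fun m hm ω ω' h h' D hD =>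
      halg m hm ω ω' ((hsec _ _).1 h) ((hsec _ _).1 h') D hD⟩
  rintro z ⟨i, hi, j, rfl⟩
  exact (hsec _ _).2 (hx' i hi j)

end Pool.Agent.Results.MP_97d78d_ag.ProductsOfArrangements
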